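import Mathlib
import Pool.Agent.Y1.HZ.Main
import Pool.Agent.Y1.HZ.Betti

/-!
# The noncommutative Hodge conjecture for `C ⊠ D^perf(A)`

`A` is a product of powers of abelian varieties with nondegenerate CM types for pairwise independent
CM fields, `Z` is a variety with small Betti numbers (or unrelated to the CM fields) and `C` is any
admissible subcategory of `D^perf(Z)`, which is given by the action on the rational cohomology of `Z`
of the projection functor.
-/

set_option autoImplicit false

namespace Pool.Agent.Results.MP_43e44c_ag.AdmissibleTimesAbelian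

open Matrix NumberField Module Pool.Agent.H204R3.CM Pool.Agent.H977R3.CM Pool.Agent.TH131.GHC
  Pool.Agent.TH504.VY Pool.Agent.TH504.CB Pool.Agent.TH170.CM Pool.Agent.TH170.MF Pool.Agent.Y1.HZ

/-- An admissible subcategory `C` of `D^perf(Z)`, where `V` is the cohomology of `Z`: the action `e` of
the projection functor on the rational cohomology of `Z`, an idempotent which commutes with the Hodge
operator (it preserves the differences `p - q` of the types `(p, q)`). -/
structure Admissible {v : ℕ} (V : Coh v) where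
  /-- the action of the projection -/
  e : (Fin v → ℚ) →ₗ[ℚ] (Fin v → ℚ)
  idem : ∀ x, e (e x) = e x
  hodge : V.z * (LinearMap.toMatrix' e).map (algebraMap ℚ ℂ) =
    (LinearMap.toMatrix' e).map (algebraMap ℚ ℂ) * V.z

/-- The operator `1 × e` on the cohomology of `A × Z`: the action of the projection functor to the
admissible subcategory `D^perf(A) ⊠ C` of `D^perf(A × Z)`. -/
def timesOp {W : Type} [AddCommGroup W] [Module ℚ W] {v : ℕ}
    (e : (Fin v → ℚ) →ₗ[ℚ] (Fin v → ℚ)) (F : HAZ W v) : HAZ W v :=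
  fun k => e.compAlternatingMap (F k)

/-- The spans of the classes of algebraic cycles on `A × Z` and on `Z`: the exterior product of a
product of divisor classes on `A` and an algebraic class on `Z` is algebraic, and the restriction
of an algebraic class on `A × Z` to `0 × Z` is algebraic. -/
structure Cycles {W T : Type} [AddCommGroup W] [Module ℚ W] [AddCommGroup T] [Module ℂ T]
    (per : W →+ T) (v : ℕ) where
  /-- the algebraic classes on `A × Z` -/
  alg : Submodule ℚ (HAZ W v)
  /-- the algebraic classes on `Z` -/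
  algZ : Submodule ℚ (Fin v → ℚ)
  cross_mem : ∀ k, ∀ f ∈ divisorSpan per k, ∀ x ∈ algZ, cross f x ∈ alg
  restrict_mem : ∀ F ∈ alg, F 0 ![] ∈ algZ

/-- The noncommutative Hodge conjecture for `C`: each Hodge class of `C` (a Hodge class on `Z` fixed
by the projection) is the projection of an algebraic class on `Z`. -/
def HodgeFor {v : ℕ} (V : Coh v) (C : Admissible V) (algZ : Submodule ℚ (Fin v → ℚ)) : Prop :=
  ∀ x, IsHodgeOn V x → C.e x = x → ∃ y ∈ algZ, C.e y = x

/-- The noncommutative Hodge conjecture for `D^perf(A) ⊠ C`. -/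
def HodgeForTimes {W T : Type} [AddCommGroup W] [Module ℚ W] [AddCommGroup T] [Module ℂ T]
    (per : W →+ T) {v : ℕ} (V : Coh v) (C : Admissible V) (alg : Submodule ℚ (HAZ W v)) : Prop :=
  ∀ F, IsHodgeOnProduct per V F → timesOp C.e F = F → ∃ G ∈ alg, timesOp C.e G = F

/-- Each Hodge class of `D^perf(A) ⊠ C` is a sum of products `f ⊗ x` of a combination `f` of products
of divisor classes on `A` and a Hodge class `x` of `C`. -/
def HodgeAreProducts {W T : Type} [AddCommGroup W] [Module ℚ W] [AddCommGroup T] [Module ℂ T]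
    (per : W →+ T) {v : ℕ} (V : Coh v) (C : Admissible V) : Prop :=
  ∀ F, IsHodgeOnProduct per V F → timesOp C.e F = F →
    F ∈ Submodule.span ℚ {F : HAZ W v | ∃ (k : ℕ) (f : W [⋀^Fin k]→ₗ[ℚ] ℚ) (x : Fin v → ℚ),
      f ∈ divisorSpan per k ∧ IsHodgeOn V x ∧ C.e x = x ∧ F = cross f x}

/-- All Betti numbers of the variety with cohomology `V` are less than twice the dimension of each
minimal nonzero Galois-stable space of odd functions on the complex embeddings of `E`. -/
def SmallBetti {v : ℕ} (V : Coh v) (E : Type) [Field E] : Prop :=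
  ∀ S ∈ minimalSpaces E, ∀ k, betti V k < 2 * finrank ℚ S

/-- The statement. -/
def Statement : Prop :=
  ∀ (ι : Type) [Fintype ι] (E : ι → Type) [∀ i, Field (E i)] [∀ i, NumberField (E i)]
    [∀ i, IsCMField (E i)] (Φ : ∀ i, Set (E i →+* ℂ)), (∀ i, IsCMType (Φ i)) →
    PairwiseIndep E → (∀ i, ¬ Degenerate (Φ i)) →
    ∀ (J : Type) [Fintype J] (t : J → ι) (v : ℕ) (V : Coh v),
      (∀ i, SmallBetti V (E i) ∨ UnrelatedHodge V (E i)) → ∀ C : Admissible V,
        HodgeAreProducts (per Φ t) V C ∧
        ∀ S : Cycles (per Φ t) v, (HodgeForTimes (per Φ t) V C S.alg ↔ HodgeFor V C S.algZ)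

section proof

variable {W T : Type} [AddCommGroup W] [Module ℚ W] [AddCommGroup T] [Module ℂ T]
  {v : ℕ}

theorem timesOp_add (e : (Fin v → ℚ) →ₗ[ℚ] (Fin v → ℚ)) (F G : HAZ W v) :
    timesOp e (F + G) = timesOp e F + timesOp e G := by
  funext k
  refine AlternatingMap.ext fun w => ?_
  change e ((F k + G k) w) = e (F k w) + e (G k w)
  rw [AlternatingMap.add_apply, map_add]

theorem timesOp_smul (e : (Fin v → ℚ) →ₗ[ℚ] (Fin v → ℚ)) (r : ℚ) (F : HAZ W v) :
    timesOp e (r • F) = r • timesOp e F := by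
  funext k
  refine AlternatingMap.ext fun w => ?_
  change e ((r • F k) w) = r • e (F k w)
  rw [AlternatingMap.smul_apply, map_smul]

theorem timesOp_zero (e : (Fin v → ℚ) →ₗ[ℚ] (Fin v → ℚ)) :
    timesOp e (0 : HAZ W v) = 0 := by
  funext k
  refine AlternatingMap.ext fun w => ?_
  change e ((0 : W [⋀^Fin k]→ₗ[ℚ] (Fin v → ℚ)) w) = 0
  rw [AlternatingMap.zero_apply, map_zero]

theorem timesOp_cross (e : (Fin v → ℚ) →ₗ[ℚ] (Fin v → ℚ)) {k : ℕ} (f : W [⋀^Fin k]→ₗ[ℚ] ℚ)
    (x : Fin v → ℚ) : timesOp e (cross f x) = cross f (e x) := by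
  funext l
  by_cases hl : l = k
  · subst hl
    refine AlternatingMap.ext fun w => ?_
    change e ((cross f x) l w) = (cross f (e x)) l w
    rw [cross, cross, Pi.single_eq_same, Pi.single_eq_same]
    change e (f w • x) = f w • e x
    rw [map_smul]
  · refine AlternatingMap.ext fun w => ?_
    change e ((cross f x) l w) = (cross f (e x)) l w
    rw [cross, cross, Pi.single_eq_of_ne hl, Pi.single_eq_of_ne hl, AlternatingMap.zero_apply,
      map_zero]

/-- The projection maps Hodge classes to Hodge classes. -/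
theorem hodge_op {V : Coh v} (C : Admissible V) {x : Fin v → ℚ} (hx : IsHodgeOn V x) :
    IsHodgeOn V (C.e x) := by
  have h1 : cv (C.e x) = (LinearMap.toMatrix' C.e).map (algebraMap ℚ ℂ) *ᵥ cv x := by
    funext b
    have h2 : C.e x = (LinearMap.toMatrix' C.e) *ᵥ x := (LinearMap.toMatrix'_mulVec C.e x).symm
    change ((C.e x b : ℚ) : ℂ) = _
    rw [h2]
    simp only [Matrix.mulVec, dotProduct, Matrix.map_apply, cv, Rat.cast_sum, Rat.cast_mul,
      eq_ratCast]
  change V.z *ᵥ cv (C.e x) = 0
  rw [h1, Matrix.mulVec_mulVec, C.hodge, ← Matrix.mulVec_mulVec]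
  have h2 : V.z *ᵥ cv x = 0 := hx
  rw [h2, Matrix.mulVec_zero]

theorem one_mem_divisorSpan (per : W →+ T) :
    (AlternatingMap.constOfIsEmpty ℚ W (Fin 0) (1 : ℚ)) ∈ divisorSpan per 0 := by
  refine Submodule.subset_span ⟨0, Equiv.equivOfIsEmpty _ _, Fin.elim0, fun l => l.elim0, ?_⟩
  intro w
  rw [AlternatingMap.constOfIsEmpty_apply]
  have h : (Finset.univ : Finset (Equiv.Perm (Fin 0))) = {1} := by decide
  rw [h, Finset.sum_singleton]
  simp

theorem hodge_one (per : W →+ T) {V : Coh v} {x : Fin v → ℚ} (hx : IsHodgeOn V x) :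
    IsHodgeOnProduct per V (cross (AlternatingMap.constOfIsEmpty ℚ W (Fin 0) (1 : ℚ)) x) := by
  refine ⟨Pi.single 0 (AlternatingMap.constOfIsEmpty ℝ T (Fin 0) (cv x)), ?_, ?_⟩
  · intro k w
    by_cases hk : k = 0
    · subst hk
      rw [cross, Pi.single_eq_same, Pi.single_eq_same]
      change cv x = cv ((1 : ℚ) • x)
      rw [one_smul]
    · rw [cross, Pi.single_eq_of_ne hk, Pi.single_eq_of_ne hk]
      rw [AlternatingMap.zero_apply, AlternatingMap.zero_apply]
      funext b
      simp only [cv, Pi.zero_apply, Rat.cast_zero]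
  · intro k u
    by_cases hk : k = 0
    · subst hk
      rw [Pi.single_eq_same]
      change (-Complex.I) • ∑ l : Fin 0, _ + V.z *ᵥ cv x = ((0 : ℤ) : ℂ) • cv x
      have h2 : V.z *ᵥ cv x = 0 := hx
      rw [h2, Finset.univ_eq_empty, Finset.sum_empty, smul_zero, Int.cast_zero, zero_smul, add_zero]
    · rw [Pi.single_eq_of_ne hk]
      simp only [AlternatingMap.zero_apply, Finset.sum_const_zero, smul_zero, Matrix.mulVec_zero,
        add_zero]

end proof

theorem result : Statement := by
  intro ι _ E _ _ _ Φ hΦ hind hnd J _ t v V hun C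
  have hun' : ∀ i, UnrelatedHodge V (E i) := fun i =>
    (hun i).elim (fun h => unrelated_of_betti V h) id
  have hT := hodgeTimes_of_not_degenerate hΦ hind hnd
  refine ⟨?_, fun S => ⟨?_, ?_⟩⟩
  · intro F hF hfix
    have h1 : F ∈ crossSpan (per Φ t) V := hT J t v V hun' F hF
    rw [← hfix]
    clear hfix hF
    induction h1 using Submodule.span_induction with
    | mem F hF =>
      obtain ⟨k, f, x, hf, hx, rfl⟩ := hF
      rw [timesOp_cross]
      exact Submodule.subset_span ⟨k, f, C.e x, hf, hodge_op C hx, C.idem x, rfl⟩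
    | zero =>
      rw [timesOp_zero]
      exact Submodule.zero_mem _
    | add F G _ _ hF hG =>
      rw [timesOp_add]
      exact Submodule.add_mem _ hF hG
    | smul r F _ hF =>
      rw [timesOp_smul]
      exact Submodule.smul_mem _ _ hF
  · intro h x hx hex
    obtain ⟨G, hG, hGe⟩ := h (cross (AlternatingMap.constOfIsEmpty ℚ _ (Fin 0) (1 : ℚ)) x)
      (hodge_one _ hx) (by rw [timesOp_cross, hex])
    refine ⟨G 0 ![], S.restrict_mem G hG, ?_⟩
    have h1 := congrArg (fun F : HAZ (∀ j, E (t j)) v => F 0 ![]) hGe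
    change C.e (G 0 ![]) = _ at h1
    rw [h1]
    change (cross (AlternatingMap.constOfIsEmpty ℚ _ (Fin 0) (1 : ℚ)) x : HAZ (∀ j, E (t j)) v) 0 ![] = x
    rw [cross, Pi.single_eq_same]
    change (1 : ℚ) • x = x
    rw [one_smul]
  · intro h F hF hfix
    have h1 : F ∈ crossSpan (per Φ t) V := hT J t v V hun' F hF
    suffices h2 : ∃ G ∈ S.alg, timesOp C.e G = timesOp C.e F by
      obtain ⟨G, hG, hGe⟩ := h2
      exact ⟨G, hG, hGe.trans hfix⟩
    clear hfix hF
    induction h1 using Submodule.span_induction with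
    | mem F hF =>
      obtain ⟨k, f, x, hf, hx, rfl⟩ := hF
      obtain ⟨y, hy, hey⟩ := h (C.e x) (hodge_op C hx) (C.idem x)
      refine ⟨cross f y, S.cross_mem k f hf y hy, ?_⟩
      rw [timesOp_cross, timesOp_cross, hey]
    | zero => exact ⟨0, Submodule.zero_mem _, rfl⟩
    | add F G _ _ hF hG =>
      obtain ⟨F', hF', hFe⟩ := hF
      obtain ⟨G', hG', hGe⟩ := hG
      exact ⟨F' + G', Submodule.add_mem _ hF' hG', by rw [timesOp_add, timesOp_add, hFe, hGe]⟩
    | smul r F _ hF =>
      obtain ⟨F', hF', hFe⟩ := hF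
      exact ⟨r • F', Submodule.smul_mem _ _ hF', by rw [timesOp_smul, timesOp_smul, hFe]⟩

end Pool.Agent.Results.MP_43e44c_ag.AdmissibleTimesAbelian
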