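import Mathlib
import Pool.Agent.Results.MP_43e44c_ag.AdmissibleTimesAbelian
import Pool.Agent.Y91.PS.Point
import Pool.Agent.H44T.GP.Der

/-!
# The noncommutative Hodge conjecture for `C ⊠ D^perf(A)`, `A` with many independent periods

`A` is a product of simple principally polarized abelian varieties `A i` of dimensions `g i` (equal
or isogenous factors are allowed, so powers are included) such that, for a subfield `K` of the complex
numbers, the field generated over `K` by the periods of `A i` contains more than `(g i) ^ 2 / 4`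
numbers which are algebraically independent over `K`; `Y` is any smooth projective variety whose Hodge
structure is defined over `K`, and `C` is any admissible subcategory of `D^perf(Y)`.
-/

set_option autoImplicit false

namespace Pool.Agent.Results.MP_43e44c_ag.ManyPeriods

open Matrix Module Pool.Agent.H204R3.CM Pool.Agent.W437.HC Pool.Agent.W437.HD
  Pool.Agent.W437.HP Pool.Agent.W437.HR Pool.Agent.W437.HQ Pool.Agent.TH131.GHC
  Pool.Agent.TH504.VY Pool.Agent.TH504.CB Pool.Agent.H44T.GP Pool.Agent.Y91.PS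
  Pool.Agent.Results.MP_43e44c_ag.AdmissibleTimesAbelian

/-- The field generated over `K` by the entries of the period matrix `Z` contains more than
`g ^ 2 / 4` numbers which are algebraically independent over `K`. -/
def HasManyPeriods (K : Subfield ℂ) {g : ℕ} (Z : Matrix (Fin g) (Fin g) ℂ) : Prop :=
  ∃ (D : ℕ) (x : Fin D → ℂ), g ^ 2 < 4 * D ∧ AlgebraicIndependent K x ∧
    ∀ i, x i ∈ IntermediateField.adjoin K {z | ∃ a b, Z a b = z}

/-- `Z` is the period matrix of a simple principally polarized abelian variety with more than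
`g ^ 2 / 4` periods which are algebraically independent over `K`. -/
def IsSimpleWithManyPeriods (K : Subfield ℂ) {g : ℕ} (Z : Matrix (Fin g) (Fin g) ℂ) : Prop :=
  Zᵀ = Z ∧ (Z.map Complex.im).PosDef ∧ IsSimpleAV Z ∧ HasManyPeriods K Z

/-- The statement. -/
def Statement : Prop :=
  ∀ (n : ℕ) (g : Fin n → ℕ) (Z : ∀ i, Matrix (Fin (g i)) (Fin (g i)) ℂ) (K : Subfield ℂ),
    (∀ i, IsSimpleWithManyPeriods K (Z i)) →
    ∀ (v : ℕ) (V : Coh v), (∀ a b, V.z a b ∈ K) → ∀ C : Admissible V,
      HodgeAreProducts (perProd Z) V C ∧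
      ∀ S : Cycles (perProd Z) v, (HodgeForTimes (perProd Z) V C S.alg ↔ HodgeFor V C S.algZ)

section proof

theorem simple_free {g : ℕ} {Z : Matrix (Fin g) (Fin g) ℂ} {K : Subfield ℂ}
    (h : IsSimpleWithManyPeriods K Z) :
    HasPcs (DZ Z) ∧ ∃ δ : Derivation ℚ ℂ ℂ, (∀ y : K, δ y = 0) ∧ Z.map δ ≠ 0 := by
  classical
  obtain ⟨hZ, hpos, hs, D, x, hD, hx, hxZ⟩ := h
  have hδ : ∀ a : Fin D, ∃ δ : Derivation ℚ ℂ ℂ, (∀ y : K, δ y = 0) ∧
      ∀ i, δ (x i) = if i = a then 1 else 0 := by
    intro a
    exact exists_derivationK (K := K) hx fun i => if i = a then (1 : ℂ) else 0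
  choose δ hδK hδ using hδ
  have hcomb : ∀ (c : Fin D → ℂ) (y : K), comb δ c y = 0 := by
    intro c y
    rw [comb_apply]
    exact Finset.sum_eq_zero fun a _ => by rw [hδK a y, mul_zero]
  have hinj : Function.Injective (LinearMap.pi fun i : Unit => derL (fun _ : Unit => Z) δ i) := by
    rw [← LinearMap.ker_eq_bot, LinearMap.ker_eq_bot']
    intro c hc
    have hc' : ∀ i, derL (fun _ : Unit => Z) δ i c = 0 := fun i => congrFun hc i
    have h2 : Z.map (comb δ c) = 0 := by
      have h1 := comb_map (Z := fun _ : Unit => Z) δ c ()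
      exact h1.trans (hc' ())
    have h3 : ∀ y ∈ {z | ∃ a b, Z a b = z}, comb δ c y = 0 := by
      rintro _ ⟨a, b, rfl⟩
      exact congrFun (congrFun h2 a) b
    funext b
    have h4 := der_adjoinK (comb δ c) (hcomb c) h3 (hxZ b)
    rw [comb_apply, Finset.sum_eq_single b (fun a _ hab => by rw [hδ, if_neg hab.symm, mul_zero])
      (fun h => absurd (Finset.mem_univ b) h), hδ, if_pos rfl, mul_one] at h4
    exact h4
  obtain ⟨R, hR, hmv⟩ := main_der' (Z := fun _ : Unit => Z) (fun _ => hZ) (fun _ => hpos)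
    (fun _ => hs) δ hinj
  rw [Fintype.card_fin] at hR
  have hRe : () ∉ R := by
    intro hmem
    have hRu : R = Finset.univ := by
      ext y
      simp [hmem]
    have h1 := hR (g - 1)
    rw [hRu] at h1
    simp only [Finset.univ_unique, Finset.sum_singleton] at h1
    rcases Nat.eq_zero_or_pos g with h0 | h0
    · subst h0
      have hD0 : 0 < D := by omega
      -- the matrix has no entries
      have h2 : Z.map (comb δ (fun _ => 1)) = 0 := by
        ext a
        exact a.elim0
      have h3 : derL (fun _ : Unit => Z) δ () (fun _ => 1) = 0 :=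
        (comb_map (Z := fun _ : Unit => Z) δ (fun _ => 1) ()).symm.trans h2
      have h4 : (LinearMap.pi fun i : Unit => derL (fun _ : Unit => Z) δ i)
          (fun _ : Fin D => (1 : ℂ)) =
          (LinearMap.pi fun i : Unit => derL (fun _ : Unit => Z) δ i) 0 := by
        rw [map_zero]
        funext i
        exact h3
      have h5 := congrFun (hinj h4) ⟨0, hD0⟩
      exact one_ne_zero h5
    · have h2 : (g - 1 + 1) ^ 2 + 2 * (g - (g - 1) - 1) * (g - (g - 1)) < 4 * D := by
        have e1 : g - 1 + 1 = g := by omega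
        have e2 : g - (g - 1) - 1 = 0 := by omega
        rw [e1, e2]
        simpa using hD
      have h3 := h1 hD h2
      omega
  obtain ⟨hp, u, -, hne⟩ := hmv () hRe
  refine ⟨hp, comb δ u, hcomb u, ?_⟩
  have h1 := comb_map (Z := fun _ : Unit => Z) δ u ()
  intro h0
  exact hne (h1.symm.trans h0)

theorem crossSpan_of_free {n : ℕ} {g : Fin n → ℕ} {Z : ∀ i, Matrix (Fin (g i)) (Fin (g i)) ℂ}
    {v : ℕ} {V : Coh v} (h : IsFree Z V) {F : HAZ (∀ i, Fin (g i) ⊕ Fin (g i) → ℚ) v}
    (hF : IsHodgeOnProduct (perProd Z) V F) : F ∈ crossSpan (perProd Z) V :=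
  h.mem_of_integrals hF fun k j e f hf β _ =>
    Submodule.subset_span ⟨k, f, _, hf, h.integral_mem hF e β, rfl⟩

end proof

theorem result : Statement := by
  intro n g Z K hZK v V hV C
  have hfree : IsFree Z V := by
    refine ⟨fun i => (hZK i).1, fun i => (hZK i).2.1, fun i => (simple_free (hZK i)).1,
      indep_of_der (fun i => (hZK i).1) (fun i => (hZK i).2.1) (fun i => (simple_free (hZK i)).1)
        (fun i => (hZK i).2.2.1) V fun i => ?_⟩
    obtain ⟨-, δ, hδ, hne⟩ := simple_free (hZK i)
    refine ⟨δ, ?_, hne⟩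
    ext a b
    exact hδ ⟨V.z a b, hV a b⟩
  refine ⟨?_, fun S => ⟨?_, ?_⟩⟩
  · intro F hF hfix
    have h1 : F ∈ crossSpan (perProd Z) V := crossSpan_of_free hfree hF
    rw [← hfix]
    clear hfix hF
    induction h1 using Submodule.span_induction with
    | mem F hF =>
      obtain ⟨k, f, x, hf, hx, rfl⟩ := hF
      rw [timesOp_cross]
      exact Submodule.subset_span ⟨k, f, C.e x, hf, hodge_op C hx, C.idem x, rfl⟩
    | zero =>
      rw [timesOp_zero]
      exact Submodule.zero_mem _
    | add F G _ _ hF hG =>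
      rw [timesOp_add]
      exact Submodule.add_mem _ hF hG
    | smul r F _ hF =>
      rw [timesOp_smul]
      exact Submodule.smul_mem _ _ hF
  · intro h x hx hex
    obtain ⟨G, hG, hGe⟩ := h (cross (AlternatingMap.constOfIsEmpty ℚ _ (Fin 0) (1 : ℚ)) x)
      (hodge_one _ hx) (by rw [timesOp_cross, hex])
    refine ⟨G 0 ![], S.restrict_mem G hG, ?_⟩
    have h1 := congrArg (fun F : HAZ (∀ i, Fin (g i) ⊕ Fin (g i) → ℚ) v => F 0 ![]) hGe
    change C.e (G 0 ![]) = _ at h1
    rw [h1]
    change (cross (AlternatingMap.constOfIsEmpty ℚ _ (Fin 0) (1 : ℚ)) x :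
      HAZ (∀ i, Fin (g i) ⊕ Fin (g i) → ℚ) v) 0 ![] = x
    rw [cross, Pi.single_eq_same]
    change (1 : ℚ) • x = x
    rw [one_smul]
  · intro h F hF hfix
    have h1 : F ∈ crossSpan (perProd Z) V := crossSpan_of_free hfree hF
    suffices h2 : ∃ G ∈ S.alg, timesOp C.e G = timesOp C.e F by
      obtain ⟨G, hG, hGe⟩ := h2
      exact ⟨G, hG, hGe.trans hfix⟩
    clear hfix hF
    induction h1 using Submodule.span_induction with
    | mem F hF =>
      obtain ⟨k, f, x, hf, hx, rfl⟩ := hF
      obtain ⟨y, hy, hey⟩ := h (C.e x) (hodge_op C hx) (C.idem x)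
      refine ⟨cross f y, S.cross_mem k f hf y hy, ?_⟩
      rw [timesOp_cross, timesOp_cross, hey]
    | zero => exact ⟨0, Submodule.zero_mem _, rfl⟩
    | add F G _ _ hF hG =>
      obtain ⟨F', hF', hFe⟩ := hF
      obtain ⟨G', hG', hGe⟩ := hG
      exact ⟨F' + G', Submodule.add_mem _ hF' hG', by rw [timesOp_add, timesOp_add, hFe, hGe]⟩
    | smul r F _ hF =>
      obtain ⟨F', hF', hFe⟩ := hF
      exact ⟨r • F', Submodule.smul_mem _ _ hF', by rw [timesOp_smul, timesOp_smul, hFe]⟩

end Pool.Agent.Results.MP_43e44c_ag.ManyPeriods
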