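import Pool.Agent.V11219.NcMain

/-!
# The Hodge conjecture for admissible subcategories of derived categories of products

Let `W` be a Weil cohomology theory with algebraically closed coefficients (singular cohomology with
complex coefficients) on a class of smooth proper varieties, and let `Γ` be a group which acts on the
cohomology of the varieties `X_i` and `Z` with the formal properties of the action of a Mumford-Tate
group (`χ` is the action on the Tate twists).

Let `H` and `C` be two systems of classes (`ClassSystem`): for every variety `A` spaces `H(A)`, `C(A)` of
cohomology classes, containing the classes of algebraic cycles and stable under products, pull-backs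
and push-forwards, such as the combinations of Hodge classes, of absolute Hodge classes, of motivated
classes or of algebraic classes. `Included H C A` is the statement `H(A) ⊆ C(A)`, and
`MapLe P (H A) (C A)` the statement that `P(H(A)) ⊆ P(C(A))`, for an operator `P` on the cohomology of `A`. On the products
considered below the space `H(A)` is supposed to be spanned by elements of `H(A)` which are multiplied
by powers of `χ(g)` by all `g` in a subgroup of finite index of `Γ` (`SemiOn`); nothing is assumed on
`C`.

The example for this problem: `H` = combinations of Hodge classes, `C` = combinations of algebraic classes,
and `Γ` = the complex points of the Mumford-Tate group of the cohomology of the `X_i` and `Z`; or `χ = 1`,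
the varieties are very general members of families over the same base and `Γ` is the fundamental
group of the base. For an admissible subcategory `𝒞` of `D^perf(T)` let `P` be the operator on the even
cohomology of `T` (the topological K-theory with complex coefficients) defined by the projection onto
`𝒞`: the spaces spanned by the classes of `K_0(𝒞)` and by the Hodge classes of `𝒞` are `P(C(T))` and `P(H(T))`.
So `MapLe P (H T) (C T)` is the Hodge conjecture for `𝒞`.

Let `X_i` be finitely many varieties of odd dimension for which (and for the powers of which) numerical
and homological equivalence coincide (for example curves, hypersurfaces, complete intersections), whose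
transcendental cohomology `T_i` (the orthogonal complement of the algebraic classes) is concentrated in
the middle degree and irreducible under all subgroups of finite index of `Γ`. Assume:

* **(distinct)** for `i ≠ j` the representations `T_i` and `T_j` of `Γ` are not isomorphic up to scalars;
* **(small defects)** let `N` be the set of the `g ∈ Γ` with `χ(g) = 1` which act trivially on the
  cohomology of `Z` and with `(g - 1) ^ 2 = 0` on **all** `T_j`. For every `i` some `g ∈ N` has defects
  on `T_i` without a common prime factor, or the defect two; here the defects of `g` are the rank of
  `g - 1` on `T_i` and the multiplicities of the nonzero eigenvalues of `(g - 1) (g' - 1)` on `T_i`, for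
  `g' ∈ N`. (Or: the conjugates of some `g ∈ N` act irreducibly on `T_i` and the defects of all
  elements of `N` have no common prime factor.)

The elements of `N` are, for instance, products of local monodromy operators at points of the boundary
of the families at which `Z` does not degenerate and the `X_j` have ordinary double points, or are
curves with semistable reduction; all `X_j` may degenerate at the same points. They belong to the
Mumford-Tate group of the very general members.

Let `T` be a product of `Z` with arbitrary powers of the `X_i`. Then the following are **equivalent**:
`P(H(T)) ⊆ P(C(T))` for all operators `P`; `H(Z) ⊆ C(Z)`. So the Hodge conjecture holds for all admissible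
subcategories of `D^perf(T)` (also if they are not of the form `D^perf(Y)`) as soon as it holds for
`Z`, for instance if `Z` is a point, a surface, or an abelian variety for which it is known; and
conversely. Nothing is assumed on `Z`.

Proof. By the theory of extremal elements of Lie algebras (see `MP_0d42ed_ag.SemistableProducts`) a
potentially semi-invariant class on the product of a power of `X_i` with `A` is a combination of
products `m_l x_l` of algebraic classes `m_l` of the power, linearly independent, with classes `x_l` of
`A`. As numerical and homological equivalence coincide for the power of `X_i`, the intersection form on
its algebraic classes is nondegenerate, so `x_l` is the push-forward of the product of the class with an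
algebraic class of the power, and belongs to `H(A)` if the class belongs to `H`.
-/

universe u

namespace Pool.Agent.Results.MP_43e44c_ag.TwoSystems

open Pool.Agent.H914 Pool.Agent.H281R3.HT Pool.Agent.TH125.Gal Pool.Agent.V11219.Min
  Pool.Agent.V11219.Cls

/-- **Classes on direct factors of products with powers.** -/
theorem result {k : Type u} [Field k] {𝒱 : VarClass k} {ops : CycleOps 𝒱}
    (W : WeilCohomology.{u, 0} ops) [IsAlgClosed W.K] {Γ : Type} [Group Γ] (χ : CharOf W Γ)
    (H C : Classes W) (hH : ClassSystem W H) (hC : ClassSystem W C)
    {ι : Type} [Finite ι] (X : ι → GVar W Γ) (Z : GVar W Γ) (h : Family χ X Z)
    (hD : ∀ i, PowersHomEqNum (X i)) (hs : ∀ S A, Tower X Z S A → SemiOn χ H A)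
    (S : Set ι) (T : GVar W Γ) (hT : Tower X Z S T) :
    (∀ P : Module.End W.K (W.H T.X), MapLe P (H T.X) (C T.X)) ↔ Included H C Z := by
  classical
  have := Fintype.ofFinite ι
  exact mapLe_iff.trans (two_sst hH hC h.vars hD hs hT)

end Pool.Agent.Results.MP_43e44c_ag.TwoSystems
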